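import Mathlib
import Pool.Agent.V11320.StableMain

set_option autoImplicit false
open MeasureTheory ProbabilityTheory
open scoped ENNReal NNReal BigOperators

namespace Pool.Agent.Results.MP_32afb7_pr.HeavyTailPercolates

/-- The sample space. For `ω = (N, M)`, the unit interval `[z, z + 1]` contains `N z` points of the
process, and `M (z, i)` is the pair formed by the position of the `i`-th of them relative to `z`
and its number of stubs. -/
abbrev Sample : Type := (ℤ → ℕ) × (ℤ × ℕ → unitInterval × ℕ)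

/-- The law of the marked Poisson process of intensity one on the line: the unit intervals contain
independent Poisson numbers of mean one of points, which are independent and uniform in their
intervals, and the numbers of stubs are independent of law `μ`. -/
noncomputable def poissonLaw (μ : PMF ℕ) : Measure Sample :=
  (Measure.infinitePi (fun _ : ℤ => (poissonPMF 1).toMeasure)).prod
    (Measure.infinitePi (fun _ : ℤ × ℕ => (volume : Measure unitInterval).prod μ.toMeasure))

/-- The points of the process. -/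
abbrev Pt (ω : Sample) : Type := {k : ℤ × ℕ // k.2 < ω.1 k.1}

/-- The position of a point on the line. -/
def pos (ω : Sample) (x : Pt ω) : ℝ := (x.1.1 : ℝ) + ((ω.2 x.1).1 : ℝ)

/-- The number of stubs of a point. -/
def stubs (ω : Sample) (x : Pt ω) : ℕ := (ω.2 x.1).2

/-- A simple graph on the points is a stable multi-matching if every point `x` has degree exactly
`D_x` and, for any two distinct points `x` and `y`, either they are joined by an edge or at least
one of them has no incident edge of length greater than `|x - y|`. -/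
def IsStableMultiMatching (ω : Sample) (G : SimpleGraph (Pt ω)) : Prop :=
  (∀ x, (G.neighborSet x).encard = stubs ω x) ∧
  ∀ x y, x ≠ y → G.Adj x y ∨
    (∀ z, G.Adj x z → |pos ω x - pos ω z| ≤ |pos ω x - pos ω y|) ∨
    (∀ z, G.Adj y z → |pos ω y - pos ω z| ≤ |pos ω x - pos ω y|)

/-- There is a connected component with infinitely many vertices. -/
def HasInfiniteComponent {V : Type} (G : SimpleGraph V) : Prop :=
  ∃ C : G.ConnectedComponent, C.supp.Infinite

/-- The law `μ` satisfies `μ([n, ∞)) ≥ c n ^ (-α)` for some `α < 1` and `c > 0`. -/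
def HeavyTail (μ : PMF ℕ) : Prop :=
  ∃ α : ℝ, 0 ≤ α ∧ α < 1 ∧ ∃ c : ℝ, 0 < c ∧
    ∀ n : ℕ, 1 ≤ n → c * (n : ℝ) ^ (-α) ≤ (μ.toMeasure {m | n ≤ m}).toReal

open Pool.Agent.V11320

/-- the distance between labels -/
def dl (M : ℤ × ℕ → unitInterval × ℕ) (p q : ℤ × ℕ) : ℝ :=
  |((p.1 : ℝ) + ((M p).1 : ℝ)) - ((q.1 : ℝ) + ((M q).1 : ℝ))|

theorem geo : StableProb.Geo dl 2 7 (fun i => Finset.Ico (0 : ℤ) (2 ^ i))
    (fun i => Finset.Icc (-(3 * 2 ^ i) : ℤ) (3 * 2 ^ i)) (fun i => (2 : ℝ) ^ (i + 1)) := by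
  have hu : ∀ u : unitInterval, (0 : ℝ) ≤ u ∧ (u : ℝ) ≤ 1 := fun u => u.2
  refine ⟨fun M x y => abs_sub_comm _ _, le_rfl, by norm_num, ?_, ?_, ?_, ?_, ?_, ?_, ?_⟩
  · intro i
    rw [Int.card_Ico, sub_zero]
    have h2 : (2 ^ i : ℤ) = ((2 ^ i : ℕ) : ℤ) := by push_cast; rfl
    rw [h2, Int.toNat_natCast]
  · intro i
    rw [Int.card_Icc]
    have h1 : (1 : ℤ) ≤ 2 ^ i := one_le_pow₀ (by norm_num)
    have h2 : ((2 ^ i : ℕ) : ℤ) = 2 ^ i := by push_cast; rfl
    omega
  · intro i
    exact pow_le_pow_right₀ (by norm_num) (by omega)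
  · intro M i z hz z' hz' k k'
    rw [Finset.mem_Ico] at hz hz'
    have h1 := hu (M (z, k)).1
    have h2 := hu (M (z', k')).1
    have h3 : (0 : ℝ) ≤ z := by exact_mod_cast hz.1
    have h4 : (0 : ℝ) ≤ z' := by exact_mod_cast hz'.1
    have h5 : (z : ℝ) + 1 ≤ 2 ^ i := by exact_mod_cast hz.2
    have h6 : (z' : ℝ) + 1 ≤ 2 ^ (i + 1) := by exact_mod_cast hz'.2
    have h7 : (2 : ℝ) ^ i ≤ 2 ^ (i + 1) := pow_le_pow_right₀ (by norm_num) (by omega)
    unfold dl
    rw [abs_le]
    constructor <;> simp only <;> linarith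
  · intro M i z hz k w hw
    rw [Finset.mem_Ico] at hz
    unfold dl at hw
    have h1 := hu (M (z, k)).1
    have h2 := hu (M w).1
    have h3 : (0 : ℝ) ≤ z := by exact_mod_cast hz.1
    have h5 : (z : ℝ) + 1 ≤ 2 ^ i := by exact_mod_cast hz.2
    have h6 : (1 : ℝ) ≤ 2 ^ i := one_le_pow₀ (by norm_num)
    have h7 : (2 : ℝ) ^ (i + 1) = 2 * 2 ^ i := by rw [pow_succ]; ring
    rw [abs_le, h7] at hw
    simp only at hw
    rw [Finset.mem_Icc]
    constructor
    · have : (-(3 * 2 ^ i) : ℝ) ≤ w.1 := by linarith [hw.1, hw.2]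
      exact_mod_cast this
    · have : (w.1 : ℝ) ≤ 3 * 2 ^ i := by linarith [hw.1, hw.2]
      exact_mod_cast this
  · intro M y
    obtain ⟨n, hn⟩ := exists_nat_gt (|(y.1 : ℝ)| + 1)
    refine Filter.eventually_atTop.mpr ⟨n, fun i hi z hz k => ?_⟩
    rw [Finset.mem_Ico] at hz
    unfold dl
    have h1 := hu (M (z, k)).1
    have h2 := hu (M y).1
    have h3 : (0 : ℝ) ≤ z := by exact_mod_cast hz.1
    have h5 : (z : ℝ) + 1 ≤ 2 ^ i := by exact_mod_cast hz.2
    have h8 : (i : ℝ) ≤ 2 ^ i := by exact_mod_cast (Nat.lt_two_pow_self (n := i)).le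
    have h9 : (n : ℝ) ≤ i := by exact_mod_cast hi
    have h10 := abs_le.mp (le_refl |(y.1 : ℝ)|)
    have h7 : (2 : ℝ) ^ (i + 1) = 2 * 2 ^ i := by rw [pow_succ]; ring
    rw [abs_le, h7]
    constructor <;> simp only <;> linarith [h10.1, h10.2]
  · intro M x r
    refine ⟨Finset.Icc (⌊(x.1 : ℝ) - |r| - 2⌋) (⌈(x.1 : ℝ) + |r| + 2⌉), fun w hw => ?_⟩
    unfold dl at hw
    have h1 := hu (M x).1
    have h2 := hu (M w).1
    have h3 := hw.trans (le_abs_self r)
    rw [abs_le] at h3
    rw [Finset.mem_Icc]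
    constructor
    · have h4 := Int.floor_le ((x.1 : ℝ) - |r| - 2)
      have h5 : ((⌊(x.1 : ℝ) - |r| - 2⌋ : ℤ) : ℝ) ≤ w.1 := by linarith [h3.1, h3.2]
      exact_mod_cast h5
    · have h4 := Int.le_ceil ((x.1 : ℝ) + |r| + 2)
      have h5 : (w.1 : ℝ) ≤ ((⌈(x.1 : ℝ) + |r| + 2⌉ : ℤ) : ℝ) := by linarith [h3.1, h3.2]
      exact_mod_cast h5

/-- For every degree law with `μ([n, ∞)) ≥ c n ^ (-α)`, `α < 1`, almost surely a stable
multi-matching exists and every stable multi-matching has an infinite component; such laws may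
charge the odd integer `1`. -/
theorem result :
    (∀ μ : PMF ℕ, μ 0 = 0 → HeavyTail μ → ∀ᵐ ω ∂(poissonLaw μ),
      (∃ G : SimpleGraph (Pt ω), IsStableMultiMatching ω G) ∧
      ∀ G : SimpleGraph (Pt ω), IsStableMultiMatching ω G → HasInfiniteComponent G) ∧
    ∃ μ : PMF ℕ, μ 0 = 0 ∧ HeavyTail μ ∧ 0 < μ 1 := by
  constructor
  · intro μ _ hμ
    have h1 := StableProb.ae_rec (X := ℤ) (volume : Measure unitInterval) μ hμ geo
    filter_upwards [h1] with ω hω
    obtain ⟨x, hx⟩ := hω
    have hs : ∀ p q : Pt ω, dl ω.2 p.1 q.1 = dl ω.2 q.1 p.1 := fun p q => geo.symm _ _ _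
    constructor
    · obtain ⟨G, hG1, hG2⟩ := StableDet.exists_stable
        (fun p q : Pt ω => dl ω.2 p.1 q.1) (fun p => (ω.2 p.1).2) hs
        (fun p r => StableProb.finite_ball geo ω.1 ω.2 p r)
      have hex := StableDet.degree_exact hs hx G hG1 hG2
      refine ⟨G, hex, ?_⟩
      intro p q hne
      by_cases hadj : G.Adj p q
      · exact Or.inl hadj
      · right
        have key : ∀ (y : Pt ω) (r : ℝ), StableDet.Sat (fun p q : Pt ω => dl ω.2 p.1 q.1)
            (fun p => (ω.2 p.1).2) G y r → ∀ z, G.Adj y z → dl ω.2 y.1 z.1 ≤ r := by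
          intro y r hsat z hz
          have hfin : (G.neighborSet y).Finite := Set.finite_of_encard_eq_coe (hex y)
          have hsub : {w | G.Adj y w ∧ dl ω.2 y.1 w.1 ≤ r} ⊆ G.neighborSet y := fun w hw => hw.1
          have hle : (G.neighborSet y).encard ≤ {w | G.Adj y w ∧ dl ω.2 y.1 w.1 ≤ r}.encard := by
            rw [hex y]; exact hsat
          have heq := (hfin.subset hsub).eq_of_subset_of_encard_le hsub hle
          have hz' : z ∈ {w | G.Adj y w ∧ dl ω.2 y.1 w.1 ≤ r} := by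
            rw [heq]; exact hz
          exact hz'.2
        rcases hG2 p q hne hadj with h | h
        · exact Or.inl (key p _ h)
        · exact Or.inr (key q _ h)
    · intro G hG
      refine StableDet.infinite_component hx G ?_
      intro p q hne hadj
      rcases hG.2 p q hne with h | h | h
      · exact absurd h hadj
      · left
        show ((ω.2 p.1).2 : ℕ∞) ≤ {w | G.Adj p w ∧ dl ω.2 p.1 w.1 ≤ dl ω.2 p.1 q.1}.encard
        rw [show ((ω.2 p.1).2 : ℕ∞) = (G.neighborSet p).encard from (hG.1 p).symm]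
        exact Set.encard_le_encard fun w hw => ⟨hw, h w hw⟩
      · right
        show ((ω.2 q.1).2 : ℕ∞) ≤ {w | G.Adj q w ∧ dl ω.2 q.1 w.1 ≤ dl ω.2 p.1 q.1}.encard
        rw [show ((ω.2 q.1).2 : ℕ∞) = (G.neighborSet q).encard from (hG.1 q).symm]
        exact Set.encard_le_encard fun w hw => ⟨hw, h w hw⟩
  · exact ⟨StableProb.hlaw 1, StableProb.hlaw_lt 1 0 one_pos, StableProb.hlaw_heavy 1,
      StableProb.hlaw_pos 1 1 le_rfl le_rfl⟩

end Pool.Agent.Results.MP_32afb7_pr.HeavyTailPercolates
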